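import Pool.Agent.helper32.PN.Spec

/-!
# Row pn:EE (MP_405bd9_al): the potential of the states with a long column
-/

set_option autoImplicit false

namespace Pool.Agent.PN

open Module Polynomial Pool.Agent.helper27.PC

noncomputable section

theorem EE_inv (g : Bool → ℤ) : ∀ (i : ℕ) (S T : St), T ∈ ends i S → ∑ l ∈ T, g l.1 = ∑ l ∈ S, g l.1 := by
  intro i
  induction i with
  | zero =>
    intro S T h
    have h1 : T = S := by simpa [ends] using h
    rw [h1]
  | succ n ih =>
    intro S T h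
    simp only [ends, Finset.mem_biUnion] at h
    obtain ⟨l, hl, hT⟩ := h
    rw [ih _ _ hT]
    unfold addable at hl
    rw [Finset.mem_filter] at hl
    unfold move
    rw [Finset.sum_insert (fun h => hl.2 (Finset.mem_of_mem_erase h)), ← Finset.add_sum_erase S _ hl.1]
    rfl

theorem EE_mem_ext {K d : ℕ} {T : St} {b : Bool} {p : ℕ} :
    (b, p) ∈ ext K (K + d) T ↔ p < d ∨ (d ≤ p ∧ (b, p - d) ∈ T) := by
  unfold ext
  rw [Nat.add_sub_cancel_left, Finset.mem_union, Finset.mem_product, Finset.mem_image]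
  constructor
  · rintro (⟨-, h⟩ | ⟨⟨b', p'⟩, h1, h2⟩)
    · exact Or.inl (Finset.mem_range.mp h)
    · unfold up at h2
      simp only [Prod.mk.injEq] at h2
      obtain ⟨rfl, rfl⟩ := h2
      right
      refine ⟨Nat.le_add_left _ _, ?_⟩
      rw [Nat.add_sub_cancel]
      exact h1
  · rintro (h | ⟨h1, h2⟩)
    · exact Or.inl ⟨Finset.mem_univ _, Finset.mem_range.mpr h⟩
    · refine Or.inr ⟨_, h2, ?_⟩
      unfold up
      simp only [Prod.mk.injEq, true_and]
      omega

theorem EE_base (s : Bool) (K d : ℕ) : ext K (K + d) (base s K) = base s (K + d) := by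
  ext ⟨b, p⟩
  rw [EE_mem_ext]
  unfold base vac
  simp only [Finset.mem_insert, Finset.mem_product, Finset.mem_univ, Finset.mem_range, Prod.mk.injEq, true_and]
  by_cases hb : b = s
  · simp only [hb, true_and]
    omega
  · simp only [hb, false_and, false_or]
    omega

theorem EE_up_inj (d : ℕ) : Function.Injective (up d) := by
  rintro ⟨b, p⟩ ⟨b', p'⟩ h
  unfold up at h
  simp only [Prod.mk.injEq] at h ⊢
  exact ⟨h.1, by omega⟩

theorem EE_ext (t : Bool) (K d : ℕ) (T : St) :
    pt t (K + d) (ext K (K + d) T) = pt t (K + d) (Finset.univ ×ˢ Finset.range d) + pt t K T +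
      ∑ l ∈ T, ((d : ℤ) ^ 2 + d - 2 * (K + d) * d + 2 * tb t l.1 * d) := by
  have hdis : Disjoint (Finset.univ ×ˢ Finset.range d) (T.image (up d)) := by
    rw [Finset.disjoint_left]
    rintro ⟨b, p⟩ h1 h2
    have h3 := Finset.mem_range.mp (Finset.mem_product.mp h1).2
    obtain ⟨l, -, hl⟩ := Finset.mem_image.mp h2
    have h4 : l.2 + d = p := congrArg Prod.snd hl
    simp only at h3
    omega
  unfold ext
  rw [Nat.add_sub_cancel_left]
  unfold pt
  rw [Finset.sum_union hdis, Finset.sum_image (fun x _ y _ h => EE_up_inj d h), add_assoc, ← Finset.sum_add_distrib]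
  congr 1
  refine Finset.sum_congr rfl fun l _ => ?_
  unfold up
  push_cast
  ring

theorem EE : EE_stmt := by
  intro t s K m h i T hm hT
  obtain ⟨d, rfl⟩ := Nat.exists_eq_add_of_le (show K ≤ m by omega)
  have h1 := EE_ext t K d T
  have h2 := EE_ext t K d (base s K)
  have h3 := EE_inv (fun b => (d : ℤ) ^ 2 + d - 2 * (K + d) * d + 2 * tb t b * d) i (base s K) T hT
  have hmem : (s, h) ∈ ext K (K + d) T := EE_mem_ext.mpr (Or.inl (by omega))
  have h4 : pt t (K + d) (emb s K (K + d) h T) = pt t (K + d) (ext K (K + d) T) -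
      ((h : ℤ) ^ 2 + h - 2 * ((K + d : ℕ) : ℤ) * h + 2 * tb t s * h) := by
    unfold emb pt
    rw [← Finset.add_sum_erase _ _ hmem]
    ring
  have h5 : pt t (K + d) (base s (K + d)) = pt t (K + d) (vac (K + d)) +
      (((K + d : ℕ) : ℤ) ^ 2 + ((K + d : ℕ) : ℤ) - 2 * ((K + d : ℕ) : ℤ) * ((K + d : ℕ) : ℤ) + 2 * tb t s * ((K + d : ℕ) : ℤ)) := by
    unfold base pt
    rw [Finset.sum_insert, add_comm]
    unfold vac
    simp
  rw [EE_base] at h2
  rw [h4, h1, h3]
  rw [h5] at h2
  push_cast at h2 ⊢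
  linear_combination (-1 : ℤ) * h2

end

end Pool.Agent.PN
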