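import Pool.Agent.helper32.PN.Spec

/-!
# Row pn:EXTI (MP_405bd9_al): the outside part does not depend on the number of beads
-/

set_option autoImplicit false

namespace Pool.Agent.PN

open Module Polynomial Pool.Agent.helper27.PC

noncomputable section

theorem EXTI_mem {K d : ℕ} {T : St} {b : Bool} {p : ℕ} :
    (b, p) ∈ ext K (K + d) T ↔ p < d ∨ (d ≤ p ∧ (b, p - d) ∈ T) := by
  unfold ext
  rw [Nat.add_sub_cancel_left, Finset.mem_union, Finset.mem_product, Finset.mem_image]
  constructor
  · rintro (⟨-, h⟩ | ⟨⟨b', p'⟩, h1, h2⟩)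
    · exact Or.inl (Finset.mem_range.mp h)
    · unfold up at h2
      simp only [Prod.mk.injEq] at h2
      obtain ⟨rfl, rfl⟩ := h2
      right
      refine ⟨Nat.le_add_left _ _, ?_⟩
      rw [Nat.add_sub_cancel]
      exact h1
  · rintro (h | ⟨h1, h2⟩)
    · exact Or.inl ⟨Finset.mem_univ _, Finset.mem_range.mpr h⟩
    · refine Or.inr ⟨_, h2, ?_⟩
      unfold up
      simp only [Prod.mk.injEq, true_and]
      omega

theorem EXTI_mem_add {K d : ℕ} {T : St} {b : Bool} {p : ℕ} : (b, p + d) ∈ ext K (K + d) T ↔ (b, p) ∈ T := by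
  rw [EXTI_mem, Nat.add_sub_cancel]
  constructor
  · rintro (h | ⟨-, h⟩)
    · omega
    · exact h
  · intro h
    exact Or.inr ⟨Nat.le_add_left _ _, h⟩

theorem EXTI_base (s : Bool) (K d : ℕ) : ext K (K + d) (base s K) = base s (K + d) := by
  ext ⟨b, p⟩
  rw [EXTI_mem]
  unfold base vac
  simp only [Finset.mem_insert, Finset.mem_product, Finset.mem_univ, Finset.mem_range, Prod.mk.injEq, true_and]
  by_cases hb : b = s
  · simp only [hb, true_and]
    omega
  · simp only [hb, false_and, false_or]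
    omega

theorem EXTI_inj {K d : ℕ} {T T' : St} (h : ext K (K + d) T = ext K (K + d) T') : T = T' := by
  ext ⟨b, p⟩
  rw [← EXTI_mem_add (K := K) (d := d), h, EXTI_mem_add]

theorem EXTI_surj {K d : ℕ} {T' : St} (h : ∀ (b : Bool) (p : ℕ), p < d → (b, p) ∈ T') : ∃ T : St, ext K (K + d) T = T' := by
  refine ⟨(T'.filter fun l => d ≤ l.2).image (fun l => (l.1, l.2 - d)), ?_⟩
  ext ⟨b, p⟩
  rw [EXTI_mem, Finset.mem_image]
  constructor
  · rintro (h1 | ⟨h1, ⟨⟨b', p'⟩, h2, h3⟩⟩)
    · exact h b p h1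
    · rw [Finset.mem_filter] at h2
      simp only [Prod.mk.injEq] at h3
      obtain ⟨rfl, h4⟩ := h3
      have : p' = p := by
        have := h2.2
        simp only at this
        omega
      rw [← this]
      exact h2.1
  · intro h1
    rcases lt_or_ge p d with h2 | h2
    · exact Or.inl h2
    · exact Or.inr ⟨h2, ⟨(b, p), Finset.mem_filter.mpr ⟨h1, h2⟩, rfl⟩⟩

theorem EXTI_pos (b : Bool) (K d : ℕ) (T : St) :
    SD_pos b (ext K (K + d) T) = Finset.range d ∪ (SD_pos b T).image (· + d) := by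
  ext p
  rw [SD_mem_pos, EXTI_mem, Finset.mem_union, Finset.mem_range, Finset.mem_image]
  constructor
  · rintro (h | ⟨h1, h2⟩)
    · exact Or.inl h
    · exact Or.inr ⟨p - d, SD_mem_pos.mpr h2, by omega⟩
  · rintro (h | ⟨q, h1, h2⟩)
    · exact Or.inl h
    · refine Or.inr ⟨by omega, ?_⟩
      have : p - d = q := by omega
      rw [this]
      exact SD_mem_pos.mp h1

theorem EXTI_disj (d : ℕ) (P : Finset ℕ) : Disjoint (Finset.range d) (P.image (· + d)) := by
  rw [Finset.disjoint_left]
  intro p h1 h2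
  obtain ⟨q, -, h3⟩ := Finset.mem_image.mp h2
  have := Finset.mem_range.mp h1
  omega

theorem EXTI_card (b : Bool) (K d : ℕ) (T : St) : (SD_pos b (ext K (K + d) T)).card = d + (SD_pos b T).card := by
  rw [EXTI_pos, Finset.card_union_of_disjoint (EXTI_disj d _), Finset.card_range,
    Finset.card_image_of_injective _ (add_left_injective d)]

theorem EXTI_sum (b : Bool) (K d : ℕ) (T : St) : ∑ p ∈ SD_pos b (ext K (K + d) T), p =
    ∑ p ∈ Finset.range d, p + (∑ p ∈ SD_pos b T, p + (SD_pos b T).card * d) := by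
  rw [EXTI_pos, Finset.sum_union (EXTI_disj d _), Finset.sum_image (fun x _ y _ h => add_left_injective d h),
    Finset.sum_add_distrib, Finset.sum_const, smul_eq_mul]

theorem EXTI_range (K d : ℕ) : 2 * ∑ p ∈ Finset.range (K + d), p =
    2 * ∑ p ∈ Finset.range K, p + 2 * ∑ p ∈ Finset.range d, p + 2 * (K * d) := by
  induction d with
  | zero => simp
  | succ n ih =>
    rw [← add_assoc, Finset.sum_range_succ, Finset.sum_range_succ]
    nlinarith

theorem EXTI_iff (hCHR : CHR_stmt) (s : Bool) (K d i : ℕ) (T : St) :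
    T ∈ ends i (base s K) ↔ ext K (K + d) T ∈ ends i (base s (K + d)) := by
  rw [hCHR.2 s K i T, hCHR.2 s (K + d) i (ext K (K + d) T), EXTI_card, EXTI_card, EXTI_sum, EXTI_sum]
  have hr := EXTI_range K d
  cases s <;> simp only [Bool.not_true, Bool.not_false]
  · constructor
    · rintro ⟨h1, h2, h3⟩
      refine ⟨by omega, by omega, ?_⟩
      rw [h1, h2]
      nlinarith
    · rintro ⟨h1, h2, h3⟩
      have h1' : (SD_pos false T).card = K + 1 := by omega
      have h2' : (SD_pos true T).card = K := by omega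
      rw [h1', h2'] at h3
      refine ⟨h1', h2', ?_⟩
      nlinarith
  · constructor
    · rintro ⟨h1, h2, h3⟩
      refine ⟨by omega, by omega, ?_⟩
      rw [h1, h2]
      nlinarith
    · rintro ⟨h1, h2, h3⟩
      have h1' : (SD_pos true T).card = K + 1 := by omega
      have h2' : (SD_pos false T).card = K := by omega
      rw [h1', h2'] at h3
      refine ⟨h1', h2', ?_⟩
      nlinarith

theorem EXTI_up_inj (d : ℕ) : Function.Injective (up d) := by
  rintro ⟨b, p⟩ ⟨b', p'⟩ h
  unfold up at h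
  simp only [Prod.mk.injEq] at h ⊢
  exact ⟨h.1, by omega⟩

theorem EXTI_remv (K d : ℕ) (T : St) : remv 1 (ext K (K + d) T) = (remv 1 T).image (up d) := by
  ext ⟨b, p⟩
  unfold remv
  rw [Finset.mem_filter, Finset.mem_image]
  constructor
  · rintro ⟨h1, h2, h3⟩
    unfold dn at h3
    simp only at h2 h3
    rw [EXTI_mem] at h1 h3
    push Not at h3
    obtain ⟨h4, h5⟩ := h3
    rcases h1 with h1 | ⟨h1, h6⟩
    · omega
    · refine ⟨(b, p - d), Finset.mem_filter.mpr ⟨h6, ?_, ?_⟩, ?_⟩
      · simp only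
        omega
      · unfold dn
        simp only
        have h7 := h5 (by omega)
        have h8 : p - 1 - d = p - d - 1 := by omega
        rw [h8] at h7
        exact h7
      · unfold up
        simp only [Prod.mk.injEq, true_and]
        omega
  · rintro ⟨⟨b', q⟩, h1, h2⟩
    rw [Finset.mem_filter] at h1
    obtain ⟨h3, h4, h5⟩ := h1
    unfold up at h2
    simp only [Prod.mk.injEq] at h2
    obtain ⟨rfl, rfl⟩ := h2
    simp only at h4
    refine ⟨EXTI_mem_add.mpr h3, ?_, ?_⟩
    · simp only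
      omega
    · unfold dn at h5 ⊢
      simp only at h5 ⊢
      have h8 : q + d - 1 = (q - 1) + d := by omega
      rw [h8, EXTI_mem_add]
      exact h5

theorem EXTI_rem (K d : ℕ) (T : St) (y : Lab) (hy : y ∈ remv 1 T) :
    rem 1 (ext K (K + d) T) (up d y) = ext K (K + d) (rem 1 T y) := by
  obtain ⟨b', q⟩ := y
  unfold remv at hy
  rw [Finset.mem_filter] at hy
  obtain ⟨h3, h4, h5⟩ := hy
  simp only at h4
  ext ⟨b, p⟩
  rw [EXTI_mem]
  unfold rem up dn
  simp only [Finset.mem_insert, Finset.mem_erase, Prod.mk.injEq, ne_eq]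
  rw [EXTI_mem]
  by_cases hb : b = b'
  · simp only [hb, true_and]
    constructor
    · rintro (h | ⟨h, h' | h'⟩)
      · right
        exact ⟨by omega, Or.inl (by omega)⟩
      · exact Or.inl h'
      · exact Or.inr ⟨h'.1, Or.inr ⟨by omega, h'.2⟩⟩
    · rintro (h | ⟨h, h' | h'⟩)
      · exact Or.inr ⟨by omega, Or.inl h⟩
      · left
        omega
      · exact Or.inr ⟨by omega, Or.inr ⟨h, h'.2⟩⟩
  · simp only [hb, false_and, not_false_eq_true, true_and, false_or]

theorem EXTI_np (hNPR : NPR_stmt) (hHOL : HOL_stmt) (s : Bool) (K d : ℕ) : ∀ i T, T ∈ ends i (base s K) →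
    np i (base s (K + d)) (ext K (K + d) T) = np i (base s K) T := by
  intro i
  induction i with
  | zero =>
    intro T hT
    have h1 : T = base s K := by simpa [ends] using hT
    rw [h1, EXTI_base]
    unfold np paths
    simp
  | succ i ih =>
    intro T hT
    rw [(hNPR i (base s (K + d)) (ext K (K + d) T)).1, (hNPR i (base s K) T).1, EXTI_remv,
      Finset.sum_image (fun x _ y _ h => EXTI_up_inj d h)]
    refine Finset.sum_congr rfl fun y hy => ?_
    rw [EXTI_rem K d T y hy]
    have h2 := ((hHOL s K (i + 1) T hT).2.2.1 1 le_rfl y hy).2.1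
    rw [Nat.add_sub_cancel] at h2
    exact ih _ h2

theorem EXTI (hNPR : NPR_stmt) (hCHR : CHR_stmt) (hHOL : HOL_stmt) : EXTI_stmt := by
  intro s K m i hi hm
  obtain ⟨d, rfl⟩ := Nat.exists_eq_add_of_le hm
  refine ⟨fun T hT => ⟨(EXTI_iff hCHR s K d i T).mp hT, EXTI_np hNPR hHOL s K d i T hT⟩, ?_, fun T T' h => EXTI_inj h⟩
  intro T' hT'
  have h1 := (hHOL s (K + d) i T' hT').1
  obtain ⟨T, hT⟩ := EXTI_surj (K := K) (d := d) (T' := T') (by
    intro b p hp
    by_contra hcon
    have := h1 b p hcon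
    omega)
  refine ⟨T, ?_, hT⟩
  rw [EXTI_iff hCHR s K d i T, hT]
  exact hT'

end

end Pool.Agent.PN
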